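import Mathlib.Topology.Sheaves.Presheaf
import Mathlib.Data.Int.Star
import Mathlib.Algebra.Order.Ring.Star
import Mathlib.Combinatorics.Matroid.Basic
import Mathlib.MeasureTheory.Measure.Real
import Mathlib.MeasureTheory.Measure.Lebesgue.Basic
import Mathlib.Algebra.Order.Star.Real
import Mathlib.Combinatorics.SimpleGraph.Basic
import Mathlib.Order.Interval.Finset.Box
import Mathlib.RingTheory.PiTensorProduct
import Mathlib.Topology.Separation.CompletelyRegular
import Mathlib.Tactic.Algebra.Basic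

-- ======== part 0: formerly Pool.Agent.MP_9e0a8c_lc.MS
section MrgPart0

/-!
Weighted Motzkin-Straus reduction and the clique inequality used for the RD+PCD bound.
-/

set_option autoImplicit false

namespace Pool.Agent.MP_9e0a8c_lc

open Finset

section Newton

variable {ι : Type*} [DecidableEq ι]

lemma e2_nonneg (t : ι → ℝ) (K : Finset ι) (ht : ∀ i ∈ K, 0 ≤ t i) :
    ∑ i ∈ K, t i ^ 2 ≤ (∑ i ∈ K, t i) ^ 2 := by
  induction K using Finset.induction_on with
  | empty => simp
  | insert a K ha ih =>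
    rw [sum_insert ha, sum_insert ha]
    have h1 := ih (fun i hi => ht i (mem_insert_of_mem hi))
    have h2 : 0 ≤ ∑ i ∈ K, t i := sum_nonneg (fun i hi => ht i (mem_insert_of_mem hi))
    have h3 := ht a (mem_insert_self _ _)
    nlinarith [mul_nonneg h3 h2]

/-- Six times the third elementary symmetric function, via power sums. -/
noncomputable def e3 (t : ι → ℝ) (K : Finset ι) : ℝ :=
  (∑ i ∈ K, t i) ^ 3 - 3 * (∑ i ∈ K, t i) * (∑ i ∈ K, t i ^ 2) + 2 * ∑ i ∈ K, t i ^ 3

lemma e3_insert (t : ι → ℝ) (K : Finset ι) (a : ι) (ha : a ∉ K) :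
    e3 t (insert a K) = e3 t K + 3 * t a * ((∑ i ∈ K, t i) ^ 2 - ∑ i ∈ K, t i ^ 2) := by
  unfold e3
  rw [sum_insert ha, sum_insert ha, sum_insert ha]
  ring

lemma e3_mono (t : ι → ℝ) (L K : Finset ι) (hLK : L ⊆ K) (ht : ∀ i ∈ K, 0 ≤ t i) :
    e3 t L ≤ e3 t K := by
  induction K using Finset.induction_on generalizing L with
  | empty =>
    rw [subset_empty.mp hLK]
  | insert a K ha ih =>
    have ht' : ∀ i ∈ K, 0 ≤ t i := fun i hi => ht i (mem_insert_of_mem hi)
    have h3 := ht a (mem_insert_self _ _)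
    by_cases haL : a ∈ L
    · have hL : L = insert a (L.erase a) := (insert_erase haL).symm
      have hsub : L.erase a ⊆ K := by
        intro x hx
        have hx' := mem_erase.mp hx
        rcases mem_insert.mp (hLK hx'.2) with h | h
        · exact absurd h hx'.1
        · exact h
      rw [hL, e3_insert t _ a (notMem_erase a L), e3_insert t K a ha]
      have h1 := ih _ hsub ht'
      -- monotonicity of e2
      have h2 : (∑ i ∈ L.erase a, t i) ^ 2 - ∑ i ∈ L.erase a, t i ^ 2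
          ≤ (∑ i ∈ K, t i) ^ 2 - ∑ i ∈ K, t i ^ 2 := by
        rw [← sum_sdiff hsub, ← sum_sdiff hsub (f := fun i => t i ^ 2)]
        have e1 := e2_nonneg t (K \ L.erase a) (fun i hi => ht' i (mem_sdiff.mp hi).1)
        have e4 : 0 ≤ ∑ i ∈ K \ L.erase a, t i :=
          sum_nonneg (fun i hi => ht' i (mem_sdiff.mp hi).1)
        have e5 : 0 ≤ ∑ i ∈ L.erase a, t i := sum_nonneg (fun i hi => ht' i (hsub hi))
        nlinarith [mul_nonneg e4 e5]
      nlinarith [mul_le_mul_of_nonneg_left h2 h3]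
    · have hsub : L ⊆ K := by
        intro x hx
        rcases mem_insert.mp (hLK hx) with h | h
        · exact absurd (h ▸ hx) haL
        · exact h
      rw [e3_insert t K a ha]
      have h1 := ih _ hsub ht'
      have h2 := e2_nonneg t K ht'
      nlinarith [mul_nonneg h3 (sub_nonneg.mpr h2)]

lemma e3_nonneg (t : ι → ℝ) (K : Finset ι) (ht : ∀ i ∈ K, 0 ≤ t i) : 0 ≤ e3 t K := by
  have := e3_mono t ∅ K (empty_subset _) ht
  simpa [e3] using this

lemma e3_pos (t : ι → ℝ) (K : Finset ι) (ht : ∀ i ∈ K, 0 ≤ t i) (a b c : ι)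
    (ha : a ∈ K) (hb : b ∈ K) (hc : c ∈ K) (hab : a ≠ b) (hac : a ≠ c) (hbc : b ≠ c)
    (pa : 0 < t a) (pb : 0 < t b) (pc : 0 < t c) : 0 < e3 t K := by
  have hsub : ({a, b, c} : Finset ι) ⊆ K := by
    intro x hx
    simp only [mem_insert, mem_singleton] at hx
    rcases hx with rfl | rfl | rfl <;> assumption
  have h1 := e3_mono t _ K hsub ht
  have h2 : e3 t {a, b, c} = 6 * (t a * t b * t c) := by
    unfold e3
    have hn : a ∉ ({b, c} : Finset ι) := by simp [hab, hac]
    rw [sum_insert hn, sum_insert hn, sum_insert hn, sum_pair hbc, sum_pair hbc, sum_pair hbc]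
    ring
  have h3 : 0 < t a * t b * t c := by positivity
  linarith

/-- The clique inequality. -/
lemma clique_ineq (K : Finset ι) (p w : ι → ℝ) (hp : ∀ i ∈ K, 0 ≤ p i) (hw : ∀ i ∈ K, 0 ≤ w i)
    (hp1 : ∑ i ∈ K, p i = 1) (hw1 : ∑ i ∈ K, w i ≤ 1)
    (hs : ∑ i ∈ K, w i < 1 ∨ ∃ a ∈ K, ∃ b ∈ K, ∃ c ∈ K, a ≠ b ∧ a ≠ c ∧ b ≠ c ∧
      0 < w a ∧ 0 < w b ∧ 0 < w c) :
    ∑ i ∈ K, p i * w i * (1 - p i) - ∑ i ∈ K, p i * (1 - w i) ^ 2 < 0 := by
  set t : ι → ℝ := fun i => (p i + w i) / 2 with htdef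
  have ht : ∀ i ∈ K, 0 ≤ t i := fun i hi => by
    have := hp i hi; have := hw i hi; simp only [htdef]; positivity
  have hT : ∑ i ∈ K, t i = (1 + ∑ i ∈ K, w i) / 2 := by
    simp only [htdef]
    rw [← sum_div, sum_add_distrib, hp1]
  have hp_le : ∀ i ∈ K, p i ≤ 1 := fun i hi => hp1 ▸ single_le_sum hp hi
  have hw_le : ∀ i ∈ K, w i ≤ 1 := fun i hi => (single_le_sum hw hi).trans hw1
  have key : ∑ i ∈ K, p i * w i * (1 - p i) - ∑ i ∈ K, p i * (1 - w i) ^ 2
      ≤ 3 * ∑ i ∈ K, t i ^ 2 - 2 * ∑ i ∈ K, t i ^ 3 - 1 := by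
    have : ∑ i ∈ K, p i * w i * (1 - p i) - ∑ i ∈ K, p i * (1 - w i) ^ 2
        = ∑ i ∈ K, p i * w i * (3 - p i - w i) - ∑ i ∈ K, p i := by
      rw [← sum_sub_distrib, ← sum_sub_distrib]
      exact sum_congr rfl (fun i _ => by ring)
    rw [this, hp1, mul_sum, mul_sum, ← sum_sub_distrib]
    have : ∑ i ∈ K, p i * w i * (3 - p i - w i) ≤ ∑ i ∈ K, (3 * t i ^ 2 - 2 * t i ^ 3) := by
      apply sum_le_sum
      intro i hi
      have h1 := hp_le i hi
      have h2 := hw_le i hi
      have h3 : 0 ≤ 3 - p i - w i := by linarith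
      have h4 : p i * w i ≤ t i ^ 2 := by simp only [htdef]; nlinarith [sq_nonneg (p i - w i)]
      have h5 : 3 * t i ^ 2 - 2 * t i ^ 3 = t i ^ 2 * (3 - p i - w i) := by
        simp only [htdef]; ring
      rw [h5]
      exact mul_le_mul_of_nonneg_right h4 h3
    linarith
  set T := ∑ i ∈ K, t i with hTdef
  have hT1 : T ≤ 1 := by rw [hT]; linarith
  have hT0 : 0 ≤ T := sum_nonneg ht
  have h2 := e2_nonneg t K ht
  have h3 := e3_nonneg t K ht
  have h4 : 1 - 3 * ∑ i ∈ K, t i ^ 2 + 2 * ∑ i ∈ K, t i ^ 3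
      ≥ e3 t K + (1 - T) ^ 2 * (1 + 2 * T) := by
    unfold e3
    rw [← hTdef] at h2 ⊢
    nlinarith [mul_le_mul_of_nonneg_left h2 (sub_nonneg.mpr hT1)]
  rcases hs with hs | ⟨a, ha, b, hb, c, hc, hab, hac, hbc, wa, wb, wc⟩
  · have hT2 : 0 < 1 - T := by rw [hT]; linarith
    have : 0 < (1 - T) ^ 2 * (1 + 2 * T) := by positivity
    linarith
  · have h5 := e3_pos t K ht a b c ha hb hc hab hac hbc
      (by have := hp a ha; simp only [htdef]; linarith)
      (by have := hp b hb; simp only [htdef]; linarith)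
      (by have := hp c hc; simp only [htdef]; linarith)
    have : 0 ≤ (1 - T) ^ 2 * (1 + 2 * T) := by positivity
    linarith

end Newton

section MS

variable {ι : Type*} [DecidableEq ι]

/-- The quadratic-minus-linear form. `E i j` is the weight of the ordered pair `(i, j)`. -/
noncomputable def qform (E : ι → ι → ℝ) (f : ι → ℝ) (T : Finset ι) (p : ι → ℝ) : ℝ :=
  ∑ i ∈ T, ∑ j ∈ T, E i j * p i * p j - ∑ i ∈ T, p i * f i

lemma qform_insert (E : ι → ι → ℝ) (f : ι → ℝ) (S : Finset ι) (p : ι → ℝ) (a : ι) (ha : a ∉ S) :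
    qform E f (insert a S) p = qform E f S p + E a a * p a ^ 2 +
      p a * (∑ l ∈ S, (E a l + E l a) * p l - f a) := by
  unfold qform
  rw [sum_insert ha, sum_insert ha, sum_insert ha]
  simp only [sum_insert ha]
  rw [sum_add_distrib, mul_sub, mul_sum]
  have : ∑ l ∈ S, p a * ((E a l + E l a) * p l)
      = ∑ l ∈ S, E a l * p a * p l + ∑ l ∈ S, E l a * p l * p a := by
    rw [← sum_add_distrib]
    exact sum_congr rfl (fun l _ => by ring)
  rw [this]
  ring

omit [DecidableEq ι] in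
lemma qform_congr (E : ι → ι → ℝ) (f : ι → ℝ) (S : Finset ι) (p q : ι → ℝ)
    (h : ∀ i ∈ S, p i = q i) : qform E f S p = qform E f S q := by
  unfold qform
  congr 1
  · exact sum_congr rfl (fun i hi => sum_congr rfl (fun j hj => by rw [h i hi, h j hj]))
  · exact sum_congr rfl (fun i hi => by rw [h i hi])

/-- One Motzkin-Straus step: all mass of `b` moves to `a`. -/
lemma ms_step (E : ι → ι → ℝ) (f : ι → ℝ) (S : Finset ι) (p : ι → ℝ) (a b : ι)
    (ha : a ∉ S) (hb : b ∉ S) (hab : a ≠ b) (haa : E a a = 0) (hbb : E b b = 0)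
    (h1 : E a b = 0) (h2 : E b a = 0) (hpb : 0 ≤ p b)
    (hD : ∑ l ∈ S, (E b l + E l b) * p l - f b ≤ ∑ l ∈ S, (E a l + E l a) * p l - f a) :
    qform E f (insert b (insert a S)) p ≤
      qform E f (insert a S) (Function.update p a (p a + p b)) := by
  have hb' : b ∉ insert a S := by simp [hb, hab.symm]
  rw [qform_insert E f _ p b hb', qform_insert E f S p a ha, qform_insert E f S _ a ha,
    sum_insert ha]
  have e1 : qform E f S (Function.update p a (p a + p b)) = qform E f S p :=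
    qform_congr E f S _ _ (fun i hi => Function.update_of_ne (ne_of_mem_of_not_mem hi ha) _ _)
  have e2 : ∑ l ∈ S, (E a l + E l a) * Function.update p a (p a + p b) l
      = ∑ l ∈ S, (E a l + E l a) * p l :=
    sum_congr rfl (fun i hi => by rw [Function.update_of_ne (ne_of_mem_of_not_mem hi ha)])
  rw [e1, e2, Function.update_self, haa, hbb, h1, h2]
  nlinarith [mul_le_mul_of_nonneg_left hD hpb]

/-- Motzkin-Straus reduction to cliques. -/
lemma ms (E : ι → ι → ℝ) (f : ι → ℝ) (adj : ι → ι → Prop) (hsymm : ∀ i j, adj i j → adj j i)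
    (hE : ∀ i j, ¬ adj i j → E i j = 0) (hirr : ∀ i, ¬ adj i i) :
    ∀ (n : ℕ) (T : Finset ι) (p : ι → ℝ), T.card = n → (∀ i ∈ T, 0 ≤ p i) →
      ∃ K ⊆ T, ∃ q : ι → ℝ, (∀ i ∈ K, ∀ j ∈ K, i ≠ j → adj i j) ∧ (∀ i ∈ K, 0 ≤ q i) ∧
        ∑ i ∈ K, q i = ∑ i ∈ T, p i ∧ qform E f T p ≤ qform E f K q := by
  intro n
  induction n with
  | zero =>
    intro T p hT hp
    refine ⟨T, Subset.refl _, p, ?_, hp, rfl, le_rfl⟩
    intro i hi
    rw [card_eq_zero.mp hT] at hi
    simp at hi
  | succ n ih =>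
    intro T p hT hp
    by_cases hc : ∀ i ∈ T, ∀ j ∈ T, i ≠ j → adj i j
    · exact ⟨T, Subset.refl _, p, hc, hp, rfl, le_rfl⟩
    push Not at hc
    obtain ⟨i, hi, j, hj, hij, hn⟩ := hc
    -- symmetric core
    have core : ∀ a ∈ T, ∀ b ∈ T, a ≠ b → ¬ adj a b →
        (∑ l ∈ (T.erase b).erase a, (E b l + E l b) * p l - f b ≤
          ∑ l ∈ (T.erase b).erase a, (E a l + E l a) * p l - f a) →
        ∃ K ⊆ T, ∃ q : ι → ℝ, (∀ i ∈ K, ∀ j ∈ K, i ≠ j → adj i j) ∧ (∀ i ∈ K, 0 ≤ q i) ∧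
          ∑ i ∈ K, q i = ∑ i ∈ T, p i ∧ qform E f T p ≤ qform E f K q := by
      intro a ha b hb hab hnab hD
      set S := (T.erase b).erase a with hS
      have haS : a ∉ S := notMem_erase _ _
      have hbS : b ∉ S := fun h => notMem_erase b T (mem_of_mem_erase h)
      have h1 : insert a S = T.erase b := insert_erase (mem_erase.mpr ⟨hab, ha⟩)
      have h2 : insert b (insert a S) = T := by rw [h1]; exact insert_erase hb
      have hstep := ms_step E f S p a b haS hbS hab (hE _ _ (hirr a)) (hE _ _ (hirr b))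
        (hE _ _ hnab) (hE _ _ (fun h => hnab (hsymm _ _ h))) (hp b hb) hD
      have hcard : (insert a S).card = n := by
        rw [h1, card_erase_of_mem hb, hT]; rfl
      obtain ⟨K, hK, q, c1, c2, c3, c4⟩ := ih (insert a S) (Function.update p a (p a + p b)) hcard
        (by
          intro l hl
          by_cases hla : l = a
          · rw [hla, Function.update_self]
            exact add_nonneg (hp a ha) (hp b hb)
          · rw [Function.update_of_ne hla]
            exact hp l (mem_of_mem_erase (h1 ▸ hl)))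
      refine ⟨K, hK.trans (h1 ▸ erase_subset _ _), q, c1, c2, ?_, ?_⟩
      · rw [c3, ← h2, sum_insert (by simp [hbS, hab.symm] : b ∉ insert a S), sum_insert haS,
          sum_insert haS, Function.update_self,
          sum_congr rfl (fun l hl => Function.update_of_ne (ne_of_mem_of_not_mem hl haS) _ p)]
        ring
      · rw [← h2]
        exact hstep.trans c4
    rcases le_total (∑ l ∈ (T.erase j).erase i, (E j l + E l j) * p l - f j)
      (∑ l ∈ (T.erase j).erase i, (E i l + E l i) * p l - f i) with h | h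
    · exact core i hi j hj hij hn h
    · refine core j hj i hi hij.symm (fun h' => hn (hsymm _ _ h')) ?_
      rw [erase_right_comm]
      exact h

end MS

end Pool.Agent.MP_9e0a8c_lc

end MrgPart0

-- ======== part 1: formerly Pool.Agent.MP_9e0a8c_lc.Comb
section MrgPart1

/-!
The combinatorial core: index intervals attached to half-circle cuts.
-/

set_option autoImplicit false

namespace Pool.Agent.MP_9e0a8c_lc

open Finset

/-- Two cut types overlap when their index intervals `(2B - n, 2A)` are nonempty and meet. -/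
def ov (k : ℤ) (τ σ : ℤ × ℤ) : Prop :=
  τ.2 - τ.1 ≤ k ∧ σ.2 - σ.1 ≤ k ∧ σ.2 ≤ τ.1 + k ∧ τ.2 ≤ σ.1 + k

instance (k : ℤ) (τ σ : ℤ × ℤ) : Decidable (ov k τ σ) := by unfold ov; infer_instance

/-- Integer length of the index interval. -/
def ulen (k : ℤ) (τ : ℤ × ℤ) : ℤ := if τ.2 - τ.1 ≤ k then 2 * k + 1 - 2 * (τ.2 - τ.1) else 0

lemma clique_len (k : ℕ) (M : ℤ) (K : Finset (ℤ × ℤ)) (hK : ∀ τ ∈ K, τ.1 ≤ M ∧ M ≤ τ.2)
    (hc : ∀ i ∈ K, ∀ j ∈ K, i ≠ j → ¬ ov k i j) : ∑ τ ∈ K, ulen k τ ≤ 2 * k + 1 := by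
  classical
  set I : ℤ × ℤ → Finset ℤ := fun τ => Finset.Ico (2 * τ.2 - (2 * k + 1)) (2 * τ.1) with hI
  have h1 : ∀ τ, ulen k τ = ((I τ).card : ℤ) := by
    intro τ
    simp only [hI, ulen, Int.card_Ico]
    split_ifs with h <;> omega
  have h2 : (K : Set (ℤ × ℤ)).PairwiseDisjoint I := by
    intro i hi j hj hij
    have := hc i hi j hj hij
    simp only [Function.onFun, hI]
    rw [Finset.disjoint_left]
    intro x hx hx'
    rw [mem_Ico] at hx hx'
    apply this
    unfold ov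
    omega
  have h3 : K.biUnion I ⊆ Finset.Ico (2 * M - (2 * k + 1)) (2 * M) := by
    intro x hx
    obtain ⟨τ, hτ, hx⟩ := mem_biUnion.mp hx
    have := hK τ hτ
    simp only [hI, mem_Ico] at hx ⊢
    omega
  have h4 := card_le_card h3
  rw [card_biUnion h2, Int.card_Ico] at h4
  have h5 : ∑ τ ∈ K, ulen k τ = ((∑ τ ∈ K, (I τ).card : ℕ) : ℤ) := by
    push_cast
    exact sum_congr rfl (fun τ _ => h1 τ)
  rw [h5]
  omega

lemma clique_strict (k : ℕ) (K : Finset (ℤ × ℤ)) (hK : ∀ τ ∈ K, τ.1 < τ.2)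
    (hs : ∑ τ ∈ K, ulen k τ = 2 * k + 1) :
    ∃ a ∈ K, ∃ b ∈ K, ∃ c ∈ K, a ≠ b ∧ a ≠ c ∧ b ≠ c ∧
      0 < ulen k a ∧ 0 < ulen k b ∧ 0 < ulen k c := by
  classical
  set L := K.filter (fun τ : ℤ × ℤ => τ.2 - τ.1 ≤ (k : ℤ)) with hL
  have h1 : ∑ τ ∈ L, (2 * (k : ℤ) + 1 - 2 * (τ.2 - τ.1)) = 2 * k + 1 := by
    rw [hL, sum_filter]
    exact hs
  have h2 : 2 < L.card := by
    by_contra hcon
    have : L.card = 0 ∨ L.card = 1 ∨ L.card = 2 := by omega
    rcases this with h | h | h
    · rw [card_eq_zero.mp h] at h1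
      simp at h1
      omega
    · obtain ⟨a, ha⟩ := card_eq_one.mp h
      have haK : a ∈ K := (mem_filter.mp (by rw [← hL, ha]; exact mem_singleton_self a)).1
      have := hK a haK
      rw [ha, sum_singleton] at h1
      omega
    · obtain ⟨a, b, hab, ha⟩ := card_eq_two.mp h
      rw [ha, sum_pair hab] at h1
      omega
  obtain ⟨a, b, c, ha, hb, hc, hab, hac, hbc⟩ := two_lt_card_iff.mp h2
  rw [hL, mem_filter] at ha hb hc
  refine ⟨a, ha.1, b, hb.1, c, hc.1, hab, hac, hbc, ?_, ?_, ?_⟩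
  · simp only [ulen, if_pos ha.2]; have := ha.2; omega
  · simp only [ulen, if_pos hb.2]; have := hb.2; omega
  · simp only [ulen, if_pos hc.2]; have := hc.2; omega

lemma ulen_nonneg (k : ℤ) (τ : ℤ × ℤ) : 0 ≤ ulen k τ := by
  unfold ulen; split_ifs <;> omega

lemma comb (k : ℕ) (M : ℤ) (T : Finset (ℤ × ℤ)) (hT : ∀ τ ∈ T, τ.1 ≤ M ∧ M ≤ τ.2)
    (p ρ : ℤ × ℤ → ℝ) (hp : ∀ τ ∈ T, 0 ≤ p τ) (hp1 : ∑ τ ∈ T, p τ = 1)
    (hρ0 : ∀ τ ∈ T, 0 ≤ ρ τ) (hρz : ∀ τ ∈ T, τ.1 = τ.2 → ρ τ = 0)
    (hρ : ∀ τ ∈ T, τ.2 - τ.1 ≤ k → 0 < p τ →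
      2 * ρ τ ≤ 1 - ∑ σ ∈ T.filter (fun σ => ov k τ σ), p σ)
    (hpos : 0 < ∑ τ ∈ T, p τ * ((τ.2 - τ.1 : ℤ) : ℝ)) :
    ∑ τ ∈ T, p τ * (ρ τ * ((2 * k + 1 : ℝ) - 2 * ((τ.2 - τ.1 : ℤ) : ℝ))
      - 2 * ((τ.2 - τ.1 : ℤ) : ℝ) ^ 2 / (2 * k + 1)) < 0 := by
  classical
  set n : ℝ := 2 * k + 1 with hn
  have hn0 : 0 < n := by positivity
  set w : ℤ × ℤ → ℝ := fun τ => (ulen k τ : ℝ) / n with hw
  have hw0 : ∀ τ, 0 ≤ w τ := fun τ => by
    have : (0 : ℝ) ≤ ulen k τ := by exact_mod_cast ulen_nonneg k τ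
    simp only [hw]; positivity
  set adj : ℤ × ℤ → ℤ × ℤ → Prop := fun τ σ => τ ≠ σ ∧ ¬ ov k τ σ with hadj
  set E : ℤ × ℤ → ℤ × ℤ → ℝ := fun τ σ => if adj τ σ then w τ else 0 with hE
  set f : ℤ × ℤ → ℝ := fun τ => (1 - w τ) ^ 2 with hf
  set T' := T.filter (fun τ => τ.1 ≠ τ.2) with hT'
  have hT'T : T' ⊆ T := filter_subset _ _
  have step1 : ∑ τ ∈ T, p τ * (ρ τ * (n - 2 * ((τ.2 - τ.1 : ℤ) : ℝ))
      - 2 * ((τ.2 - τ.1 : ℤ) : ℝ) ^ 2 / n) ≤ n / 2 * qform E f T' p := by
    rw [← sum_filter_add_sum_filter_not T (fun τ => τ.1 ≠ τ.2)]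
    have z : ∑ τ ∈ T.filter (fun τ => ¬ τ.1 ≠ τ.2), p τ * (ρ τ * (n - 2 * ((τ.2 - τ.1 : ℤ) : ℝ))
        - 2 * ((τ.2 - τ.1 : ℤ) : ℝ) ^ 2 / n) = 0 := by
      apply sum_eq_zero
      intro τ hτ
      rw [mem_filter, not_not] at hτ
      rw [hρz τ hτ.1 hτ.2, hτ.2]
      simp
    rw [z, add_zero, ← hT']
    unfold qform
    rw [← sum_sub_distrib, mul_sum]
    apply sum_le_sum
    intro τ hτ
    have hτT := hT'T hτ
    rcases (hp τ hτT).eq_or_lt with h0 | h0
    · simp [← h0]
    by_cases hg : τ.2 - τ.1 ≤ k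
    · have e1 : n - 2 * ((τ.2 - τ.1 : ℤ) : ℝ) = n * w τ := by
        simp only [hw, ulen, if_pos hg]
        rw [mul_div_cancel₀ _ hn0.ne', hn]
        push_cast; ring
      have e2 : 2 * ((τ.2 - τ.1 : ℤ) : ℝ) ^ 2 / n = n / 2 * f τ := by
        have : ((τ.2 - τ.1 : ℤ) : ℝ) = n * (1 - w τ) / 2 := by linarith
        rw [this]
        simp only [hf]
        field_simp
      have e3 : T.filter (fun σ => ¬ ov k τ σ) = T'.filter (fun σ => adj τ σ) := by
        ext σ
        simp only [hT', hadj, mem_filter]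
        constructor
        · rintro ⟨h1, h2⟩
          have a1 := hT τ hτT
          have a2 := hT σ h1
          refine ⟨⟨h1, ?_⟩, ?_, h2⟩
          · intro h3; apply h2; unfold ov; omega
          · intro h3; apply h2; rw [← h3]; unfold ov; omega
        · rintro ⟨⟨h1, _⟩, _, h2⟩
          exact ⟨h1, h2⟩
      have e4 : 2 * ρ τ ≤ ∑ σ ∈ T'.filter (fun σ => adj τ σ), p σ := by
        have := hρ τ hτT hg h0
        rw [← e3]
        have e5 := sum_filter_add_sum_filter_not T (fun σ => ov k τ σ) p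
        linarith
      have e6 : ∑ σ ∈ T', E τ σ * p τ * p σ
          = w τ * p τ * ∑ σ ∈ T'.filter (fun σ => adj τ σ), p σ := by
        rw [sum_filter (s := T'), mul_sum]
        apply sum_congr rfl
        intro σ _
        simp only [hE]
        split_ifs <;> ring
      rw [e1, e2, e6]
      have e7 : 0 ≤ n * w τ * p τ := by have := hw0 τ; positivity
      nlinarith [mul_le_mul_of_nonneg_left e4 e7]
    · have e1 : w τ = 0 := by simp only [hw, ulen, if_neg hg]; simp
      have e6 : ∑ σ ∈ T', E τ σ * p τ * p σ = 0 := by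
        apply sum_eq_zero
        intro σ _
        simp only [hE, e1]
        simp
      have e2 : n ≤ 2 * ((τ.2 - τ.1 : ℤ) : ℝ) := by
        have : (2 * (k : ℤ) + 1) ≤ 2 * (τ.2 - τ.1) := by omega
        rw [hn]
        exact_mod_cast this
      have e3 : n / 2 ≤ 2 * ((τ.2 - τ.1 : ℤ) : ℝ) ^ 2 / n := by
        rw [le_div_iff₀ hn0]
        nlinarith
      have e4 : ρ τ * (n - 2 * ((τ.2 - τ.1 : ℤ) : ℝ)) ≤ 0 :=
        mul_nonpos_of_nonneg_of_nonpos (hρ0 τ hτT) (by linarith)
      rw [e6]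
      simp only [hf, e1]
      nlinarith
  have step2 : qform E f T' p < 0 := by
    obtain ⟨K, hK, q, c1, c2, c3, c4⟩ := ms E f adj
      (fun i j h => ⟨h.1.symm, fun h' => h.2 (by unfold ov at h' ⊢; omega)⟩)
      (fun i j h => by simp only [hE, if_neg h]) (fun i h => h.1 rfl) _ T' p rfl
      (fun i hi => hp i (hT'T hi))
    set m := ∑ τ ∈ T', p τ with hm
    have hm1 : m ≤ 1 := by
      rw [← hp1]
      exact sum_le_sum_of_subset_of_nonneg hT'T (fun i hi _ => hp i hi)
    have hm0 : 0 < m := by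
      by_contra hcon
      have hz : ∀ τ ∈ T', p τ = 0 := by
        have h0 : m = 0 := le_antisymm (not_lt.mp hcon) (sum_nonneg (fun i hi => hp i (hT'T hi)))
        exact (sum_eq_zero_iff_of_nonneg (fun i hi => hp i (hT'T hi))).mp h0
      have : ∑ τ ∈ T, p τ * ((τ.2 - τ.1 : ℤ) : ℝ) = 0 := by
        apply sum_eq_zero
        intro τ hτ
        by_cases h : τ.1 = τ.2
        · simp [h]
        · rw [hz τ (mem_filter.mpr ⟨hτ, h⟩), zero_mul]
      linarith
    have hKT : ∀ τ ∈ K, τ.1 ≤ M ∧ M ≤ τ.2 := fun τ h => hT τ (hT'T (hK h))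
    have hlen := clique_len k M K hKT (fun i hi j hj hij => (c1 i hi j hj hij).2)
    have hsumw : ∑ τ ∈ K, w τ = ((∑ τ ∈ K, ulen k τ : ℤ) : ℝ) / n := by
      simp only [hw]
      rw [← sum_div]
      push_cast
      rfl
    have hw1 : ∑ τ ∈ K, w τ ≤ 1 := by
      rw [hsumw, div_le_one hn0, hn]
      exact_mod_cast hlen
    have hq1 : ∑ τ ∈ K, q τ / m = 1 := by
      rw [← sum_div, c3, div_self hm0.ne']
    have hq0 : ∀ τ ∈ K, 0 ≤ q τ / m := fun τ h => div_nonneg (c2 τ h) hm0.le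
    have hcl := clique_ineq K (fun τ => q τ / m) w hq0 (fun τ _ => hw0 τ) hq1 hw1 (by
      rcases hlen.eq_or_lt with h | h
      · right
        obtain ⟨a, ha, b, hb, c, hc, hab, hac, hbc, pa, pb, pc⟩ := clique_strict k K (by
          intro τ hτ
          have a1 := hKT τ hτ
          have a2 := (mem_filter.mp (hK hτ)).2
          omega) h
        refine ⟨a, ha, b, hb, c, hc, hab, hac, hbc, ?_, ?_, ?_⟩
        · exact div_pos (by exact_mod_cast pa) hn0
        · exact div_pos (by exact_mod_cast pb) hn0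
        · exact div_pos (by exact_mod_cast pc) hn0
      · left
        rw [hsumw, div_lt_one hn0, hn]
        exact_mod_cast h)
    have hA : 0 ≤ ∑ τ ∈ K, q τ / m * w τ * (1 - q τ / m) := by
      apply sum_nonneg
      intro τ hτ
      have h1 : q τ / m ≤ 1 := hq1 ▸ single_le_sum hq0 hτ
      have h2 := hq0 τ hτ
      have h3 := hw0 τ
      have h4 : 0 ≤ 1 - q τ / m := by linarith
      positivity
    have hQ : qform E f K q = m ^ 2 * ∑ τ ∈ K, q τ / m * w τ * (1 - q τ / m)
        - m * ∑ τ ∈ K, q τ / m * (1 - w τ) ^ 2 := by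
      unfold qform
      rw [mul_sum, mul_sum]
      congr 1
      · apply sum_congr rfl
        intro τ hτ
        have e1 : ∑ σ ∈ K, E τ σ * q τ * q σ = w τ * q τ * ∑ σ ∈ K.erase τ, q σ := by
          rw [← add_sum_erase K _ hτ, mul_sum]
          have : E τ τ = 0 := by simp only [hE]; rw [if_neg (fun h => h.1 rfl)]
          rw [this, zero_mul, zero_mul, zero_add]
          apply sum_congr rfl
          intro σ hσ
          have hσ' := mem_erase.mp hσ
          simp only [hE]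
          rw [if_pos (c1 τ hτ σ hσ'.2 hσ'.1.symm)]
        have e2 : ∑ σ ∈ K.erase τ, q σ = m - q τ := by
          have := add_sum_erase K q hτ
          linarith
        rw [e1, e2]
        field_simp
      · apply sum_congr rfl
        intro τ _
        simp only [hf]
        field_simp
    have : qform E f K q < 0 := by
      rw [hQ]
      have h1 : m * (m * ∑ τ ∈ K, q τ / m * w τ * (1 - q τ / m)
        - ∑ τ ∈ K, q τ / m * (1 - w τ) ^ 2) < 0 := by
        apply mul_neg_of_pos_of_neg hm0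
        nlinarith
      nlinarith
    linarith
  have : n / 2 * qform E f T' p < 0 := mul_neg_of_pos_of_neg (by positivity) step2
  linarith

end Pool.Agent.MP_9e0a8c_lc

end MrgPart1

-- ======== part 2: formerly Pool.Agent.MP_9e0a8c_lc.Geo
section MrgPart2

/-!
Geometry: the half-circle cut decomposition of the circle metric and the main inequality
for a periodic monotone sequence of positions.
-/

set_option autoImplicit false

namespace Pool.Agent.MP_9e0a8c_lc

open Finset MeasureTheory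

/-- Circle distance of two reals. -/
noncomputable def cd (y z : ℝ) : ℝ := dist (y : UnitAddCircle) (z : UnitAddCircle)

lemma cd_eq (y z : ℝ) : cd y z = |y - z - round (y - z)| := by
  unfold cd
  rw [dist_eq_norm, ← AddCircle.coe_sub, UnitAddCircle.norm_eq]

lemma cd_le (y z : ℝ) (m : ℤ) : cd y z ≤ |y - z - m| := by
  rw [cd_eq]; exact round_le _ _

lemma cd_comm (y z : ℝ) : cd y z = cd z y := dist_comm _ _

lemma cd_eq_min (y v : ℝ) (h1 : v ≤ y) (h2 : y < v + 1) : cd y v = min (y - v) (1 - (y - v)) := by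
  rw [cd_eq, abs_sub_round_eq_min, Int.fract_eq_self.mpr ⟨by linarith, by linarith⟩]

lemma cd_add_one_left (y z : ℝ) : cd (y + 1) z = cd y z := by
  unfold cd; rw [AddCircle.coe_add_period]

lemma cd_add_one_right (y z : ℝ) : cd y (z + 1) = cd y z := by
  unfold cd; rw [AddCircle.coe_add_period]

lemma tele (Y : ℤ → ℝ) (A B : ℤ) (h : A ≤ B) :
    ∑ j ∈ Finset.Ico A B, (Y (j + 1) - Y j) = Y B - Y A := by
  induction B, h using Int.leInduction with
  | base => simp
  | succ B h ih =>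
    rw [← Finset.insert_Ico_right_eq_Ico_add_one h, sum_insert (by simp), ih]
    ring

lemma window (g : ℤ → ℝ) (n : ℤ) (hn : 0 ≤ n) (hg : ∀ j, g (j + n) = g j) (a b : ℤ) :
    ∑ j ∈ Finset.Ico a (a + n), g j = ∑ j ∈ Finset.Ico b (b + n), g j := by
  have step : ∀ a : ℤ, ∑ j ∈ Finset.Ico (a + 1) (a + 1 + n), g j
      = ∑ j ∈ Finset.Ico a (a + n), g j := by
    intro a
    have h1 : Finset.Ico a (a + n + 1) = insert (a + n) (Finset.Ico a (a + n)) :=
      (Finset.insert_Ico_right_eq_Ico_add_one (by omega)).symm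
    have h2 : Finset.Ico a (a + n + 1) = insert a (Finset.Ico (a + 1) (a + 1 + n)) := by
      ext x; simp only [mem_Ico, mem_insert]; omega
    have h3 : ∑ j ∈ Finset.Ico a (a + n + 1), g j = g (a + n) + ∑ j ∈ Finset.Ico a (a + n), g j := by
      rw [h1, sum_insert (by simp)]
    have h4 : ∑ j ∈ Finset.Ico a (a + n + 1), g j
        = g a + ∑ j ∈ Finset.Ico (a + 1) (a + 1 + n), g j := by
      rw [h2, sum_insert (by simp)]
    rw [hg] at h3
    linarith
  have all : ∀ a : ℤ, ∑ j ∈ Finset.Ico a (a + n), g j = ∑ j ∈ Finset.Ico 0 (0 + n), g j := by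
    intro a
    induction a using Int.induction_on with
    | zero => rfl
    | succ a ih => rw [step, ih]
    | pred a ih =>
      rw [← ih, ← step]
      congr 2 <;> ring
  rw [all a, all b]

lemma exists_cut (X : ℤ → ℝ) (n : ℤ) (hm : Monotone X)
    (hper : ∀ j, X (j + n) = X j + 1) : ∃ a : ℝ → ℤ, ∀ s j, a s ≤ j ↔ s ≤ X j := by
  have hk : ∀ m : ℤ, X (m * n) = X 0 + m := by
    intro m
    induction m using Int.induction_on with
    | zero => simp
    | succ m ih => rw [add_mul, one_mul, hper, ih]; push_cast; ring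
    | pred m ih =>
      have := hper ((-(m : ℤ) - 1) * n)
      rw [show (-(m : ℤ) - 1) * n + n = -(m : ℤ) * n by ring, ih] at this
      push_cast at this ⊢
      linarith
  have : ∀ s : ℝ, ∃ lb : ℤ, s ≤ X lb ∧ ∀ z : ℤ, s ≤ X z → lb ≤ z := by
    intro s
    apply Int.exists_least_of_bdd
    · refine ⟨(⌊s - X 0⌋ - 1) * n, fun z hz => ?_⟩
      by_contra hcon
      have h1 := hm (not_le.mp hcon).le
      rw [hk] at h1
      have := Int.floor_le (s - X 0)
      push_cast at h1
      linarith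
    · refine ⟨⌈s - X 0⌉ * n, ?_⟩
      rw [hk]
      have := Int.le_ceil (s - X 0)
      linarith
  choose a ha using this
  exact ⟨a, fun s j => ⟨fun h => (ha s).1.trans (hm h), (ha s).2 j⟩⟩

/-- Lebesgue measure on the cut parameter range. -/
noncomputable def mu (v : ℝ) : Measure ℝ := volume.restrict (Set.Ioc v (v + 1 / 2))

instance (v : ℝ) : IsFiniteMeasure (mu v) := by
  unfold mu
  exact ⟨by simp⟩

lemma mu_real (v : ℝ) (S : Set ℝ) : (mu v).real S = volume.real (S ∩ Set.Ioc v (v + 1 / 2)) := by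
  unfold mu
  rw [measureReal_restrict_apply' measurableSet_Ioc]

lemma mu_ge (v : ℝ) (S : Set ℝ) (a b c d : ℝ) (hab : a ≤ b) (hbc : b ≤ c) (hcd : c ≤ d)
    (ha : v ≤ a) (hd : d ≤ v + 1 / 2) (h1 : Set.Ioc a b ⊆ S) (h2 : Set.Ioc c d ⊆ S) :
    (b - a) + (d - c) ≤ (mu v).real S := by
  rw [mu_real, ← Real.volume_real_Ioc_of_le hab, ← Real.volume_real_Ioc_of_le hcd,
    ← measureReal_union (Set.Ioc_disjoint_Ioc_of_le hbc) measurableSet_Ioc (by simp) (by simp)]
  apply measureReal_mono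
  · rintro x (hx | hx)
    · exact ⟨h1 hx, by linarith [hx.1], by linarith [hx.2]⟩
    · exact ⟨h2 hx, by linarith [hx.1], by linarith [hx.2]⟩
  · exact ne_top_of_le_ne_top (by simp) (measure_mono Set.inter_subset_right)

lemma mu_le (v : ℝ) (S : Set ℝ) (a b : ℝ) (hab : a ≤ b)
    (h : S ∩ Set.Ioc v (v + 1 / 2) ⊆ Set.Ioc a b) : (mu v).real S ≤ b - a := by
  rw [mu_real, ← Real.volume_real_Ioc_of_le hab]
  exact measureReal_mono h (by simp)

/-- The far half circle of the cut `s` contains `y`. -/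
def far (s y : ℝ) : Prop := s ≤ y ∧ y < s + 1 / 2

lemma cd_le_mu (v y z : ℝ) (hy : v ≤ y) (hyz : y ≤ z) (hz : z < v + 1) :
    cd y z ≤ (mu v).real {s | ¬ (far s y ↔ far s z)} := by
  have u1 : cd y z ≤ z - y := by
    have := cd_le y z 0
    rw [Int.cast_zero, sub_zero, abs_sub_comm, abs_of_nonneg (by linarith)] at this
    exact this
  have u2 : cd y z ≤ 1 - (z - y) := by
    have := cd_le y z (-1)
    rw [abs_of_nonneg (by push_cast; linarith)] at this
    push_cast at this
    linarith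
  by_cases h1 : z ≤ v + 1 / 2
  · have := mu_ge v {s | ¬ (far s y ↔ far s z)} y z z z hyz le_rfl le_rfl hy h1 (by
      intro s hs
      simp only [Set.mem_ofPred_eq, far]
      intro h
      have := h.mpr ⟨hs.2, by linarith [hs.1]⟩
      linarith [this.1, hs.1]) (by simp)
    linarith
  by_cases h2 : v + 1 / 2 ≤ y
  · have := mu_ge v {s | ¬ (far s y ↔ far s z)} (y - 1 / 2) (z - 1 / 2) (z - 1 / 2) (z - 1 / 2)
      (by linarith) le_rfl le_rfl (by linarith) (by linarith) (by
      intro s hs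
      simp only [Set.mem_ofPred_eq, far]
      intro h
      have := h.mp ⟨by linarith [hs.2], by linarith [hs.1]⟩
      linarith [this.2, hs.2]) (by simp)
    linarith
  push Not at h1 h2
  by_cases h3 : y ≤ z - 1 / 2
  · have := mu_ge v {s | ¬ (far s y ↔ far s z)} v y (z - 1 / 2) (v + 1 / 2)
      hy h3 (by linarith) le_rfl le_rfl (by
      intro s hs
      simp only [Set.mem_ofPred_eq, far]
      intro h
      have := h.mp ⟨hs.2, by linarith [hs.1]⟩
      linarith [this.2, hs.2]) (by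
      intro s hs
      simp only [Set.mem_ofPred_eq, far]
      intro h
      have := h.mpr ⟨by linarith [hs.2], by linarith [hs.1]⟩
      linarith [this.1, hs.1])
    linarith
  · push Not at h3
    have := mu_ge v {s | ¬ (far s y ↔ far s z)} v (z - 1 / 2) y (v + 1 / 2)
      (by linarith) h3.le h2.le le_rfl le_rfl (by
      intro s hs
      simp only [Set.mem_ofPred_eq, far]
      intro h
      have := h.mp ⟨by linarith [hs.2], by linarith [hs.1]⟩
      linarith [this.2, hs.2]) (by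
      intro s hs
      simp only [Set.mem_ofPred_eq, far]
      intro h
      have := h.mpr ⟨by linarith [hs.2], by linarith [hs.1]⟩
      linarith [this.1, hs.1])
    linarith

lemma cd_le_mu' (v y z : ℝ) (hy : v ≤ y) (hy' : y < v + 1) (hz : v ≤ z) (hz' : z < v + 1) :
    cd y z ≤ (mu v).real {s | ¬ (far s y ↔ far s z)} := by
  rcases le_total y z with h | h
  · exact cd_le_mu v y z hy h hz'
  · rw [cd_comm]
    have := cd_le_mu v z y hz h hy'
    simpa only [iff_comm] using this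

lemma cd_eq_mu (v y : ℝ) (hy : v ≤ y) (hy' : y < v + 1) :
    cd y v = (mu v).real {s | far s y} := by
  rw [cd_eq_min y v hy hy']
  by_cases h : y ≤ v + 1 / 2
  · rw [min_eq_left (by linarith)]
    apply le_antisymm
    · have := mu_ge v {s | far s y} v y y y hy le_rfl le_rfl le_rfl h (by
        intro s hs
        exact ⟨hs.2, by linarith [hs.1]⟩) (by simp)
      linarith
    · apply mu_le v _ v y hy
      rintro s ⟨h1, h2⟩
      exact ⟨h2.1, h1.1⟩
  · push Not at h
    rw [min_eq_right (by linarith)]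
    apply le_antisymm
    · have := mu_ge v {s | far s y} (y - 1 / 2) (v + 1 / 2) (v + 1 / 2) (v + 1 / 2)
        (by linarith) le_rfl le_rfl (by linarith) le_rfl (by
        intro s hs
        exact ⟨by linarith [hs.2], by linarith [hs.1]⟩) (by simp)
      linarith
    · have := mu_le v {s | far s y} (y - 1 / 2) (v + 1 / 2) (by linarith) (by
        rintro s ⟨h1, h2⟩
        exact ⟨by linarith [h1.2], h2.2⟩)
      linarith

end Pool.Agent.MP_9e0a8c_lc

end MrgPart2

-- ======== part 3: formerly Pool.Agent.MP_9e0a8c_lc.Core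
section MrgPart3

/-!
The main inequality for a periodic monotone sequence of positions.
-/

set_option autoImplicit false

namespace Pool.Agent.MP_9e0a8c_lc

open Finset MeasureTheory

lemma core_window (k : ℕ) (X : ℤ → ℝ) (hm : Monotone X)
    (hper : ∀ j, X (j + (2 * k + 1)) = X j + 1) (v : ℝ) (a : ℝ → ℤ)
    (ha : ∀ s j, a s ≤ j ↔ s ≤ X j)
    (hpos : 0 < ∑ i ∈ Finset.Ico (a v) (a v + (2 * k + 1)), cd (X i) v) :
    ∑ j ∈ Finset.Ico (a v) (a v + (2 * k + 1)), (1 / (2 * k + 1 : ℝ) + (X (j + k + 1) - X (j + k))) *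
        ∑ i ∈ Finset.Ico (a v) (a v + (2 * k + 1)), cd (X i) (X j)
      < 3 * ∑ i ∈ Finset.Ico (a v) (a v + (2 * k + 1)), cd (X i) v := by
  classical
  set W := Finset.Ico (a v) (a v + (2 * k + 1)) with hW
  set n : ℝ := 2 * k + 1 with hn
  have hn0 : 0 < n := by positivity
  have amono : Monotone a := fun s t hst => (ha s (a t)).mpr (hst.trans ((ha t _).mp le_rfl))
  have alt : ∀ s j, j < a s ↔ X j < s := fun s j => by
    rw [← not_le, ha, not_le]
  have aper : a (v + 1) = a v + (2 * k + 1) := by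
    apply le_antisymm
    · rw [ha, hper]
      have := (ha v (a v)).mp le_rfl
      linarith
    · have h1 : a v ≤ a (v + 1) - (2 * k + 1) := by
        rw [ha]
        have h2 := hper (a (v + 1) - (2 * k + 1))
        rw [sub_add_cancel] at h2
        have := (ha (v + 1) _).mp le_rfl
        linarith
      omega
  have hWX : ∀ i ∈ W, v ≤ X i ∧ X i < v + 1 := by
    intro i hi
    rw [hW, mem_Ico, ← aper] at hi
    exact ⟨(ha _ _).mp hi.1, (alt _ _).mp hi.2⟩
  have hWcard : (W.card : ℝ) = n := by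
    rw [hW, Int.card_Ico, hn, show a v + (2 * k + 1) - a v = ((2 * k + 1 : ℕ) : ℤ) by push_cast; ring,
      Int.toNat_natCast]
    push_cast; ring
  set M := a (v + 1 / 2) with hM
  set τf : ℝ → ℤ × ℤ := fun s => (a s, a (s + 1 / 2)) with hτf
  have τmeas : Measurable τf :=
    amono.measurable.prodMk (amono.measurable.comp (measurable_id.add_const _))
  set T : Finset (ℤ × ℤ) := Finset.Icc (a v) M ×ˢ Finset.Icc M (a v + (2 * k + 1)) with hT
  have hTmem : ∀ τ ∈ T, a v ≤ τ.1 ∧ τ.1 ≤ M ∧ M ≤ τ.2 ∧ τ.2 ≤ a v + (2 * k + 1) := by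
    intro τ hτ
    rw [hT, mem_product, mem_Icc, mem_Icc] at hτ
    exact ⟨hτ.1.1, hτ.1.2, hτ.2.1, hτ.2.2⟩
  have τT : ∀ s ∈ Set.Ioc v (v + 1 / 2), τf s ∈ T := by
    intro s hs
    rw [hT, mem_product, mem_Icc, mem_Icc, ← aper]
    exact ⟨⟨amono hs.1.le, amono hs.2⟩, amono (by linarith [hs.1]), amono (by linarith [hs.2])⟩
  set p : ℤ × ℤ → ℝ := fun τ => 2 * (mu v).real (τf ⁻¹' {τ}) with hp
  have hp0 : ∀ τ, 0 ≤ p τ := fun τ => by simp only [hp]; positivity
  have push : ∀ (P : ℤ × ℤ → Prop) [DecidablePred P],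
      ∑ τ ∈ T.filter P, p τ = 2 * (mu v).real {s | P (τf s)} := by
    intro P _
    simp only [hp]
    rw [← mul_sum, sum_measureReal_preimage_singleton _
      (fun y _ => τmeas (measurableSet_singleton y)), mu_real, mu_real]
    congr 2
    ext s
    simp only [Set.mem_inter_iff, Set.mem_preimage, coe_filter, Set.mem_ofPred_eq]
    constructor
    · rintro ⟨⟨_, h⟩, h'⟩; exact ⟨h, h'⟩
    · rintro ⟨h, h'⟩; exact ⟨⟨τT s h', h⟩, h'⟩
  have hp1 : ∑ τ ∈ T, p τ = 1 := by
    have := push (fun _ => True)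
    rw [filter_true_of_mem (fun _ _ => trivial), mu_real] at this
    rw [this]
    simp only [Set.ofPred_true, Set.univ_inter]
    rw [Real.volume_real_Ioc_of_le (by linarith)]
    ring
  set fi : ℤ × ℤ → ℤ → Prop := fun τ i => τ.1 ≤ i ∧ i < τ.2 with hfi
  have fi_far : ∀ s i, fi (τf s) i ↔ far s (X i) := by
    intro s i
    simp only [hfi, hτf, far]
    rw [ha, alt]
  set g : ℤ × ℤ → ℝ := fun τ => ((τ.2 - τ.1 : ℤ) : ℝ) with hg
  set ρ : ℤ × ℤ → ℝ := fun τ => X (τ.2 + k) - X (τ.1 + k) with hρ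
  have filt : ∀ τ ∈ T, W.filter (fun i => fi τ i) = Finset.Ico τ.1 τ.2 := by
    intro τ hτ
    have := hTmem τ hτ
    ext i
    simp only [hW, hfi, mem_filter, mem_Ico]
    omega
  have cnt : ∀ τ ∈ T, ∑ i ∈ W, (if fi τ i then (1 : ℝ) else 0) = g τ := by
    intro τ hτ
    have := hTmem τ hτ
    rw [← sum_filter, filt τ hτ, sum_const, Int.card_Ico, nsmul_eq_mul, mul_one]
    simp only [hg]
    rw [← Int.cast_natCast, Int.toNat_of_nonneg (by omega)]
  have arcs : ∀ τ ∈ T, ∑ j ∈ W, (if fi τ j then (X (j + k + 1) - X (j + k)) else 0) = ρ τ := by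
    intro τ hτ
    have := hTmem τ hτ
    rw [← sum_filter, filt τ hτ]
    have h := tele (fun j => X (j + k)) τ.1 τ.2 (by omega)
    simp only [hρ]
    rw [← h]
    exact sum_congr rfl (fun j _ => by rw [add_right_comm])
  have arcs1 : ∑ j ∈ W, (X (j + k + 1) - X (j + k)) = 1 := by
    have h := tele (fun j => X (j + k)) (a v) (a v + (2 * k + 1)) (by omega)
    have h2 := hper (a v + k)
    rw [add_right_comm] at h2
    rw [h2] at h
    rw [show (1 : ℝ) = X (a v + k) + 1 - X (a v + k) by ring, ← h]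
    exact sum_congr rfl (fun j _ => by rw [add_right_comm])
  -- cost of the reference point
  have cv : ∑ i ∈ W, cd (X i) v = 1 / 2 * ∑ τ ∈ T, p τ * g τ := by
    have h1 : ∀ i ∈ W, cd (X i) v = 1 / 2 * ∑ τ ∈ T, p τ * (if fi τ i then (1 : ℝ) else 0) := by
      intro i hi
      have h2 := push (fun τ => fi τ i)
      rw [sum_filter] at h2
      rw [cd_eq_mu v _ (hWX i hi).1 (hWX i hi).2]
      have h3 : {s | far s (X i)} = {s | fi (τf s) i} := by
        ext s; simp only [Set.mem_ofPred_eq, fi_far]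
      rw [h3]
      simp only [mul_ite, mul_one, mul_zero]
      linarith
    rw [sum_congr rfl h1, ← mul_sum, sum_comm]
    congr 1
    apply sum_congr rfl
    intro τ hτ
    rw [← mul_sum, cnt τ hτ]
  -- cost of a report
  have cj : ∀ j ∈ W, ∑ i ∈ W, cd (X i) (X j)
      ≤ 1 / 2 * ∑ τ ∈ T, p τ * (g τ + (if fi τ j then (1 : ℝ) else 0) * (n - 2 * g τ)) := by
    intro j hj
    have h1 : ∀ i ∈ W, cd (X i) (X j)
        ≤ 1 / 2 * ∑ τ ∈ T, p τ * (if ¬ (fi τ i ↔ fi τ j) then (1 : ℝ) else 0) := by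
      intro i hi
      have h2 := push (fun τ => ¬ (fi τ i ↔ fi τ j))
      rw [sum_filter] at h2
      have h4 := cd_le_mu' v (X i) (X j) (hWX i hi).1 (hWX i hi).2 (hWX j hj).1 (hWX j hj).2
      have h3 : {s | ¬ (far s (X i) ↔ far s (X j))} = {s | ¬ (fi (τf s) i ↔ fi (τf s) j)} := by
        ext s; simp only [Set.mem_ofPred_eq, fi_far]
      rw [h3] at h4
      simp only [mul_ite, mul_one, mul_zero]
      linarith
    refine (sum_le_sum h1).trans (le_of_eq ?_)
    rw [← mul_sum, sum_comm]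
    congr 1
    apply sum_congr rfl
    intro τ hτ
    rw [← mul_sum]
    congr 1
    by_cases h : fi τ j
    · have : ∀ i ∈ W, (if ¬ (fi τ i ↔ fi τ j) then (1 : ℝ) else 0)
          = 1 - (if fi τ i then (1 : ℝ) else 0) := by
        intro i _
        by_cases h' : fi τ i <;> simp [h, h']
      rw [sum_congr rfl this, sum_sub_distrib, cnt τ hτ, sum_const, nsmul_eq_mul, hWcard, if_pos h]
      ring
    · have : ∀ i ∈ W, (if ¬ (fi τ i ↔ fi τ j) then (1 : ℝ) else 0)
          = (if fi τ i then (1 : ℝ) else 0) := by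
        intro i _
        by_cases h' : fi τ i <;> simp [h, h']
      rw [sum_congr rfl this, cnt τ hτ, if_neg h]
      ring
  have total : ∑ j ∈ W, (1 / n + (X (j + k + 1) - X (j + k))) * ∑ i ∈ W, cd (X i) (X j)
      ≤ 1 / 2 * ∑ τ ∈ T, p τ * (2 * g τ + (g τ / n + ρ τ) * (n - 2 * g τ)) := by
    have h1 : ∀ j ∈ W, (1 / n + (X (j + k + 1) - X (j + k))) * ∑ i ∈ W, cd (X i) (X j)
        ≤ 1 / 2 * ∑ τ ∈ T, p τ * ((1 / n + (X (j + k + 1) - X (j + k))) * g τ
          + ((if fi τ j then (1 : ℝ) else 0) / n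
            + (if fi τ j then (X (j + k + 1) - X (j + k)) else 0)) * (n - 2 * g τ)) := by
      intro j hj
      have h0 : 0 ≤ 1 / n + (X (j + k + 1) - X (j + k)) := by
        have := hm (show j + k ≤ j + k + 1 by omega)
        have : 0 < 1 / n := by positivity
        linarith
      refine (mul_le_mul_of_nonneg_left (cj j hj) h0).trans (le_of_eq ?_)
      rw [mul_left_comm, mul_sum]
      congr 1
      apply sum_congr rfl
      intro τ _
      split_ifs <;> ring
    refine (sum_le_sum h1).trans (le_of_eq ?_)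
    rw [← mul_sum, sum_comm]
    congr 1
    apply sum_congr rfl
    intro τ hτ
    rw [← mul_sum, sum_add_distrib, ← sum_mul, ← sum_mul, sum_add_distrib, sum_add_distrib,
      ← sum_div, ← sum_div, cnt τ hτ, arcs τ hτ, arcs1, sum_const, nsmul_eq_mul, hWcard]
    field_simp
    ring
  have main := comb k M T (fun τ hτ => ⟨(hTmem τ hτ).2.1, (hTmem τ hτ).2.2.1⟩) p ρ
    (fun τ _ => hp0 τ) hp1
    (fun τ hτ => by
      have := hTmem τ hτ
      have := hm (show τ.1 + k ≤ τ.2 + k by omega)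
      simp only [hρ]; linarith)
    (fun τ _ h => by simp only [hρ, h, sub_self])
    (fun τ hτ hgk hpτ => by
      have hsub : ∀ s, ov k τ (τf s) → X (τ.2 + k) - 1 < s ∧ s ≤ X (τ.1 + k) - 1 / 2 := by
        intro s hs
        obtain ⟨_, _, h3, h4⟩ := hs
        simp only [hτf] at h3 h4
        constructor
        · have h5 := (alt s (τ.2 - k - 1)).mp (by omega)
          have h6 := hper (τ.2 - k - 1)
          rw [show τ.2 - k - 1 + (2 * k + 1) = τ.2 + k by ring] at h6
          linarith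
        · have := (ha _ _).mp h3
          linarith
      have hne : (τf ⁻¹' {τ}).Nonempty := by
        by_contra hcon
        rw [Set.not_nonempty_iff_eq_empty] at hcon
        simp only [hp, hcon] at hpτ
        simp at hpτ
      obtain ⟨s, hs⟩ := hne
      have hs' : τf s = τ := hs
      have h7 := hsub s (by rw [hs']; unfold ov; omega)
      rw [push (fun σ => ov k τ σ)]
      have h8 := mu_le v {s | ov k τ (τf s)} (X (τ.2 + k) - 1) (X (τ.1 + k) - 1 / 2)
        (by linarith [h7.1, h7.2]) (fun s hs => hsub s hs.1)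
      simp only [hρ]
      linarith)
    (by rw [cv] at hpos; simp only [hg] at hpos; linarith)
  rw [cv]
  refine total.trans_lt ?_
  have fin : ∑ τ ∈ T, p τ * (2 * g τ + (g τ / n + ρ τ) * (n - 2 * g τ))
      = 3 * ∑ τ ∈ T, p τ * g τ + ∑ τ ∈ T, p τ * (ρ τ * (n - 2 * g τ) - 2 * g τ ^ 2 / n) := by
    rw [mul_sum, ← sum_add_distrib]
    apply sum_congr rfl
    intro τ _
    field_simp
    ring
  rw [fin]
  simp only [hg] at main ⊢
  linarith

lemma core (k : ℕ) (X : ℤ → ℝ) (hm : Monotone X)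
    (hper : ∀ j, X (j + (2 * k + 1)) = X j + 1) (v : ℝ)
    (hpos : 0 < ∑ i ∈ Finset.Ico (0 : ℤ) (2 * k + 1), cd (X i) v) :
    ∑ j ∈ Finset.Ico (0 : ℤ) (2 * k + 1), (1 / (2 * k + 1 : ℝ) + (X (j + k + 1) - X (j + k))) *
        ∑ i ∈ Finset.Ico (0 : ℤ) (2 * k + 1), cd (X i) (X j)
      < 3 * ∑ i ∈ Finset.Ico (0 : ℤ) (2 * k + 1), cd (X i) v := by
  obtain ⟨a, ha⟩ := exists_cut X _ hm hper
  have w1 : ∀ z : ℝ, ∑ i ∈ Finset.Ico (0 : ℤ) (2 * k + 1), cd (X i) z
      = ∑ i ∈ Finset.Ico (a v) (a v + (2 * k + 1)), cd (X i) z := by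
    intro z
    have := window (fun i => cd (X i) z) (2 * k + 1) (by omega)
      (fun j => by simp only [hper, cd_add_one_left]) 0 (a v)
    rwa [zero_add] at this
  have w2 := window (fun j => (1 / (2 * k + 1 : ℝ) + (X (j + k + 1) - X (j + k))) *
        ∑ i ∈ Finset.Ico (a v) (a v + (2 * k + 1)), cd (X i) (X j)) (2 * k + 1) (by omega)
      (fun j => by
        have h1 := hper (j + k + 1)
        have h2 := hper (j + k)
        rw [show j + (2 * k + 1) + k + 1 = j + k + 1 + (2 * k + 1) by ring,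
          show j + (2 * k + 1) + k = j + k + (2 * k + 1) by ring, h1, h2, hper]
        simp only [cd_add_one_right]
        ring) 0 (a v)
  rw [zero_add] at w2
  simp only [w1] at hpos ⊢
  rw [w2]
  exact core_window k X hm hper v a ha hpos

end Pool.Agent.MP_9e0a8c_lc

end MrgPart3

-- ======== part 4: formerly Pool.Agent.MP_9e0a8c_lc.Lift
section MrgPart4

/-!
Periodic extension of a sorted lift and the inequality in terms of finite index sets.
-/

set_option autoImplicit false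

namespace Pool.Agent.MP_9e0a8c_lc

open Finset

lemma exists_ext (n : ℕ) (hn : 0 < n) (x : Fin n → ℝ) (hm : Monotone x)
    (h1 : ∀ i j, x j ≤ x i + 1) :
    ∃ X : ℤ → ℝ, Monotone X ∧ (∀ j, X (j + n) = X j + 1) ∧ ∀ j : Fin n, X (j : ℕ) = x j := by
  have hn' : (0 : ℤ) < n := by exact_mod_cast hn
  have hlt : ∀ j : ℤ, (j % n).toNat < n := fun j => by
    have := Int.emod_lt_of_pos j hn'
    have := Int.emod_nonneg j hn'.ne'
    omega
  refine ⟨fun j => x ⟨(j % n).toNat, hlt j⟩ + ((j / n : ℤ) : ℝ), ?_, ?_, ?_⟩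
  · apply monotone_int_of_le_succ
    intro j
    have a1 := Int.emod_lt_of_pos j hn'
    have a2 := Int.emod_nonneg j hn'.ne'
    have a3 := Int.emod_add_mul_ediv j n
    by_cases h : j % n + 1 < n
    · have := (Int.ediv_emod_unique (a := j + 1) (q := j / n) (r := j % n + 1) hn').mpr
        ⟨by linarith, by omega, h⟩
      have h2 : x ⟨(j % n).toNat, hlt j⟩ ≤ x ⟨((j + 1) % n).toNat, hlt _⟩ := by
        apply hm
        rw [Fin.mk_le_mk, this.2]
        omega
      rw [this.1]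
      linarith
    · have := (Int.ediv_emod_unique (a := j + 1) (q := j / n + 1) (r := 0) hn').mpr
        ⟨by linarith [show j % n + 1 = n by omega], le_rfl, hn'⟩
      rw [this.1]
      push_cast
      linarith [h1 ⟨((j + 1) % n).toNat, hlt _⟩ ⟨(j % n).toNat, hlt j⟩]
  · intro j
    simp only [Int.add_emod_right]
    rw [Int.add_ediv_of_dvd_right (dvd_refl _), Int.ediv_self hn'.ne']
    push_cast
    ring
  · intro j
    have a1 : ((j : ℕ) : ℤ) % n = (j : ℕ) := Int.emod_eq_of_lt (by omega) (by omega)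
    have a2 : ((j : ℕ) : ℤ) / n = 0 := Int.ediv_eq_zero_of_lt (by omega) (by omega)
    simp only [a1, a2, Int.toNat_natCast, Fin.eta, Int.cast_zero, add_zero]

lemma sum_fin_Ico (n : ℕ) (g : ℤ → ℝ) :
    ∑ j : Fin n, g (j : ℕ) = ∑ j ∈ Finset.Ico (0 : ℤ) n, g j := by
  induction n with
  | zero => simp
  | succ n ih =>
    rw [Fin.sum_univ_castSucc]
    simp only [Fin.val_castSucc, Fin.val_last]
    rw [ih]
    push_cast
    rw [← Finset.insert_Ico_right_eq_Ico_add_one (by omega), sum_insert (by simp), add_comm]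

/-- The main inequality, for points `y j` listed clockwise and arcs as `[0,1)`-representatives. -/
lemma main_fin (k : ℕ) (x : Fin (2 * k + 1) → ℝ) (hm : Monotone x) (h1 : ∀ i j, x j ≤ x i + 1)
    (hpos : ∀ v : UnitAddCircle, 0 < ∑ i, dist (x i : UnitAddCircle) v)
    (K : Fin (2 * k + 1)) (hK : (K : ℕ) = k) :
    (∑ j, (AddCircle.equivIco 1 0 ((x (j - K) : UnitAddCircle) - (x (j + K) : UnitAddCircle)) : ℝ)
      = 1) ∧ ∀ v : UnitAddCircle,
    ∑ j, (1 / (2 * k + 1 : ℝ) +
        (AddCircle.equivIco 1 0 ((x (j - K) : UnitAddCircle) - (x (j + K) : UnitAddCircle)) : ℝ)) *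
        ∑ i, dist (x i : UnitAddCircle) (x j : UnitAddCircle)
      < 3 * ∑ i, dist (x i : UnitAddCircle) v := by
  obtain ⟨X, Xm, Xp, Xx⟩ := exists_ext (2 * k + 1) (by omega) x hm h1
  push_cast at Xp
  have cost : ∀ z : ℝ, ∑ i, dist (x i : UnitAddCircle) (z : UnitAddCircle)
      = ∑ i ∈ Finset.Ico (0 : ℤ) (2 * k + 1), cd (X i) z := by
    intro z
    have := sum_fin_Ico (2 * k + 1) (fun i => cd (X i) z)
    push_cast at this
    rw [← this]
    exact sum_congr rfl (fun i _ => by rw [Xx]; rfl)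
  have gap : ∀ m : ℤ, X (m + 1) - X m < 1 := by
    intro m
    by_contra hcon
    have h2 := hpos (X (m + 1) : ℝ)
    rw [cost] at h2
    have h3 := window (fun i => cd (X i) (X (m + 1))) (2 * k + 1) (by omega)
      (fun j => by simp only [Xp, cd_add_one_left]) 0 (m + 1)
    rw [zero_add] at h3
    rw [h3, sum_eq_zero] at h2
    · exact lt_irrefl _ h2
    · intro i hi
      rw [mem_Ico] at hi
      have a1 := Xm hi.1
      have a2 := Xm (show i ≤ m + (2 * k + 1) by omega)
      rw [Xp] at a2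
      have : X i = X (m + 1) := by linarith
      rw [this]
      exact dist_self _
  have red : ∀ (i : Fin (2 * k + 1)) (m : ℤ), (m = (i : ℕ) ∨ m = (i : ℕ) + (2 * k + 1)) →
      ((X m : ℝ) : UnitAddCircle) = (x i : ℝ) := by
    intro i m hm
    rcases hm with rfl | rfl
    · rw [Xx]
    · rw [Xp, Xx, AddCircle.coe_add_period]
  have arc : ∀ j : Fin (2 * k + 1),
      (AddCircle.equivIco 1 0 ((x (j - K) : UnitAddCircle) - (x (j + K) : UnitAddCircle)) : ℝ)
        = X ((j : ℕ) + k + 1) - X ((j : ℕ) + k) := by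
    intro j
    have hj := j.2
    have e1 : ((X ((j : ℕ) + k) : ℝ) : UnitAddCircle) = (x (j + K) : ℝ) := by
      apply red
      rw [Fin.val_add, hK]
      by_cases h : (j : ℕ) + k < 2 * k + 1
      · left; rw [Nat.mod_eq_of_lt h]; push_cast; ring
      · right
        rw [Nat.mod_eq_sub_mod (not_lt.mp h), Nat.mod_eq_of_lt (by omega)]
        omega
    have e2 : ((X ((j : ℕ) + k + 1) : ℝ) : UnitAddCircle) = (x (j - K) : ℝ) := by
      apply red
      rw [Fin.val_sub, hK]
      by_cases h : 2 * k + 1 - k + (j : ℕ) < 2 * k + 1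
      · left; rw [Nat.mod_eq_of_lt h]; omega
      · right
        rw [Nat.mod_eq_sub_mod (not_lt.mp h), Nat.mod_eq_of_lt (by omega)]
        omega
    rw [← e1, ← e2, ← AddCircle.coe_sub, AddCircle.equivIco_coe_eq]
    have := Xm (show ((j : ℕ) : ℤ) + k ≤ (j : ℕ) + k + 1 by omega)
    have := gap ((j : ℕ) + k)
    constructor <;> linarith
  simp only [arc]
  constructor
  · have := sum_fin_Ico (2 * k + 1) (fun j => X (j + k + 1) - X (j + k))
    rw [this]
    have h := tele (fun j => X (j + k)) 0 ((2 * k + 1 : ℕ) : ℤ) (by omega)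
    have h2 := Xp (0 + k)
    push_cast at h ⊢
    rw [add_comm (0 + (k : ℤ))] at h2
    simp only [zero_add] at h h2
    rw [h2] at h
    rw [show (1 : ℝ) = X k + 1 - X k by ring, ← h]
    exact sum_congr rfl (fun j _ => by rw [add_right_comm])
  · intro v
    induction v using QuotientAddGroup.induction_on with
    | H v =>
    have h2 := hpos v
    have h3 := core k X Xm Xp v (by rw [← cost]; exact h2)
    have h4 := sum_fin_Ico (2 * k + 1) (fun j => (1 / (2 * k + 1 : ℝ) + (X (j + k + 1) - X (j + k))) *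
        ∑ i ∈ Finset.Ico (0 : ℤ) (2 * k + 1), cd (X i) (X j))
    push_cast at h4
    rw [← h4, ← cost] at h3
    simp only [← cost, Xx] at h3
    exact h3

end Pool.Agent.MP_9e0a8c_lc

end MrgPart4

-- marker of a merged file
example : 731051 + 105013 = 731051 + 105013 := rfl
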